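import Mathlib

/-!
# MP_7aff4e_co: the realisable frustration parameters are the angles with rational `tan²`
-/

namespace Pool.Agent.Results.MP_7aff4e_co.RealisableSet

open Set

/-- The number of neighbours of `i` in `S`. -/
noncomputable def nbrs {V : Type} (G : SimpleGraph V) (S : Set V) (i : V) : ℕ :=
  {j | G.Adj i j ∧ j ∈ S}.ncard

/-- The bipartition `S ∪ Sᶜ` is equitable. -/
def Equitable {V : Type} (G : SimpleGraph V) (S : Set V) : Prop :=
  (∀ i ∈ S, ∀ j ∈ S, nbrs G S i = nbrs G S j ∧ nbrs G Sᶜ i = nbrs G Sᶜ j) ∧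
  (∀ i ∈ Sᶜ, ∀ j ∈ Sᶜ, nbrs G S i = nbrs G S j ∧ nbrs G Sᶜ i = nbrs G Sᶜ j)

/-- The linear degree condition with parameters `(μ₁, μ₂, r)` for the bipartition
`S₁ = S`, `S₂ = Sᶜ`. -/
def LinearDegree {V : Type} (G : SimpleGraph V) (S : Set V) (μ₁ μ₂ r : ℝ) : Prop :=
  (∀ i ∈ S, -(nbrs G S i : ℝ) + μ₁ * (nbrs G Sᶜ i : ℝ) = r) ∧
  (∀ j ∈ Sᶜ, -(nbrs G Sᶜ j : ℝ) + μ₂ * (nbrs G S j : ℝ) = r)

/-- `α` is realisable. -/
def Realisable (α : ℝ) : Prop :=
  ∃ (V : Type) (_ : Fintype V) (G : SimpleGraph V) (S : Set V) (μ₁ μ₂ r : ℝ),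
    G.Connected ∧ S.Nonempty ∧ Sᶜ.Nonempty ∧ ¬ Equitable G S ∧ LinearDegree G S μ₁ μ₂ r ∧
    |μ₁ + μ₂| < 2 ∧ μ₂ < μ₁ ∧ α = Real.arctan (√(4 - (μ₁ + μ₂) ^ 2) / (μ₁ - μ₂))

/-! ### Rationality -/

/-- rational reals -/
def Rat' (x : ℝ) : Prop := ∃ q : ℚ, x = q

theorem rat_div {b c : ℤ} {x : ℝ} (h : (b : ℝ) * x = c) (hb : b ≠ 0) : Rat' x := by
  refine ⟨(c : ℚ) / b, ?_⟩
  push_cast
  have : (b : ℝ) ≠ 0 := by exact_mod_cast hb
  field_simp
  linarith

theorem cross_edge {V : Type} {G : SimpleGraph V} (hG : G.Connected) {S : Set V}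
    (h1 : S.Nonempty) (h2 : Sᶜ.Nonempty) : ∃ u ∈ S, ∃ v ∈ Sᶜ, G.Adj u v := by
  obtain ⟨u, hu⟩ := h1
  obtain ⟨v, hv⟩ := h2
  obtain ⟨p⟩ := hG u v
  obtain ⟨d, -, hd1, hd2⟩ := p.exists_boundary_dart S hu hv
  exact ⟨d.fst, hd1, d.snd, hd2, d.adj⟩

theorem nbrs_pos {V : Type} [Finite V] {G : SimpleGraph V} {S : Set V} {i j : V}
    (h : G.Adj i j) (hj : j ∈ S) : 0 < nbrs G S i :=
  (ncard_pos (toFinite _)).2 ⟨j, h, hj⟩

theorem rat_of {a b a' b' : ℕ} {μ r : ℝ} (h : -(a : ℝ) + μ * b = r) (h' : -(a' : ℝ) + μ * b' = r)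
    (hne : ¬ (a = a' ∧ b = b')) : Rat' μ := by
  have hb : (b : ℤ) - b' ≠ 0 := by
    intro hb
    apply hne
    have hb' : b = b' := by omega
    refine ⟨?_, hb'⟩
    rw [hb'] at h
    have : (a : ℝ) = a' := by linarith
    exact_mod_cast this
  refine rat_div (b := (b : ℤ) - b') (c := (a : ℤ) - a') ?_ hb
  push_cast
  linarith

theorem rat_of_const {a b : ℕ} {μ r : ℝ} (h : -(a : ℝ) + μ * b = r) (hb : 0 < b) (hr : Rat' r) :
    Rat' μ := by
  obtain ⟨q, rfl⟩ := hr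
  refine ⟨(q + a) / b, ?_⟩
  push_cast
  have : (b : ℝ) ≠ 0 := by positivity
  field_simp
  linarith

theorem rat_r {a b : ℕ} {μ r : ℝ} (h : -(a : ℝ) + μ * b = r) (hμ : Rat' μ) : Rat' r := by
  obtain ⟨q, rfl⟩ := hμ
  exact ⟨-a + q * b, by push_cast; linarith⟩

theorem params_rational {V : Type} [Finite V] {G : SimpleGraph V} (hG : G.Connected) {S : Set V}
    (h1 : S.Nonempty) (h2 : Sᶜ.Nonempty) (hne : ¬ Equitable G S) {μ₁ μ₂ r : ℝ}
    (hl : LinearDegree G S μ₁ μ₂ r) : Rat' μ₁ ∧ Rat' μ₂ := by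
  obtain ⟨u, hu, v, hv, huv⟩ := cross_edge hG h1 h2
  by_cases c1 : ∀ i ∈ S, ∀ j ∈ S, nbrs G S i = nbrs G S j ∧ nbrs G Sᶜ i = nbrs G Sᶜ j
  · by_cases c2 : ∀ i ∈ Sᶜ, ∀ j ∈ Sᶜ, nbrs G S i = nbrs G S j ∧ nbrs G Sᶜ i = nbrs G Sᶜ j
    · exact absurd ⟨c1, c2⟩ hne
    · push Not at c2
      obtain ⟨i, hi, j, hj, hij⟩ := c2
      have hμ2 : Rat' μ₂ := rat_of (hl.2 i hi) (hl.2 j hj) (fun h => hij h.2 h.1)
      have hr : Rat' r := rat_r (hl.2 i hi) hμ2
      exact ⟨rat_of_const (hl.1 u hu) (nbrs_pos huv hv) hr, hμ2⟩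
  · push Not at c1
    obtain ⟨i, hi, j, hj, hij⟩ := c1
    have hμ1 : Rat' μ₁ := rat_of (hl.1 i hi) (hl.1 j hj) (fun h => hij h.1 h.2)
    have hr : Rat' r := rat_r (hl.1 i hi) hμ1
    exact ⟨hμ1, rat_of_const (hl.2 v hv) (nbrs_pos huv.symm hu) hr⟩

/-! ### The construction -/

/-- The matrix of half degrees. -/
def KK (a b : ℕ) (p q : Fin 3) : ℕ :=
  ![![2 * (a + b), 1, 0], ![1, a + 5 * b, a + b], ![0, a + b, a + b + 1]] p q

theorem KK_symm (a b : ℕ) (p q : Fin 3) : KK a b p q = KK a b q p := by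
  fin_cases p <;> fin_cases q <;> rfl

theorem KK_le (a b : ℕ) (p q : Fin 3) : KK a b p q ≤ 5 * (a + b) + 1 := by
  fin_cases p <;> fin_cases q <;> simp [KK] <;> omega

/-- The modulus. -/
abbrev NN (a b : ℕ) : ℕ := 20 * (a + b) + 5

/-- Three circulant classes, joined by circulant bipartite graphs. -/
def circ (a b : ℕ) : SimpleGraph (Fin 3 × ZMod (NN a b)) where
  Adj u v := ∃ t : ℕ, 1 ≤ t ∧ t ≤ KK a b u.1 v.1 ∧ (v.2 = u.2 + t ∨ u.2 = v.2 + t)
  symm := ⟨fun u v ⟨t, h1, h2, h3⟩ => ⟨t, h1, by rw [KK_symm]; exact h2, h3.symm⟩⟩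
  loopless := ⟨by
    rintro ⟨p, i⟩ ⟨t, h1, h2, h3⟩
    have h4 : (t : ZMod (NN a b)) = 0 := by
      rcases h3 with h | h
      · simpa using h
      · simpa using h
    rw [ZMod.natCast_eq_zero_iff] at h4
    have h5 := Nat.le_of_dvd (by omega) h4
    have h6 := KK_le a b p p
    have hN : NN a b = 20 * (a + b) + 5 := rfl
    simp only at h2
    omega⟩

theorem circ_count (N : ℕ) [NeZero N] (i : ZMod N) (K : ℕ) (hK : 2 * K < N) :
    {j : ZMod N | ∃ t : ℕ, 1 ≤ t ∧ t ≤ K ∧ (j = i + t ∨ i = j + t)}.ncard = 2 * K := by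
  classical
  have e : {j : ZMod N | ∃ t : ℕ, 1 ≤ t ∧ t ≤ K ∧ (j = i + t ∨ i = j + t)} =
      (((Finset.Icc 1 K).image (fun t : ℕ => i + (t : ZMod N)) ∪
        (Finset.Icc 1 K).image (fun t : ℕ => i - (t : ZMod N)) : Finset (ZMod N)) : Set (ZMod N)) := by
    ext j
    simp only [Set.mem_ofPred_eq, Finset.coe_union, Finset.coe_image, Finset.coe_Icc, Set.mem_union,
      Set.mem_image, Set.mem_Icc]
    constructor
    · rintro ⟨t, h1, h2, h | h⟩
      · exact Or.inl ⟨t, ⟨h1, h2⟩, h.symm⟩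
      · exact Or.inr ⟨t, ⟨h1, h2⟩, by rw [h]; ring⟩
    · rintro (⟨t, ⟨h1, h2⟩, h⟩ | ⟨t, ⟨h1, h2⟩, h⟩)
      · exact ⟨t, h1, h2, Or.inl h.symm⟩
      · exact ⟨t, h1, h2, Or.inr (by rw [← h]; ring)⟩
  have inj : ∀ s t : ℕ, s ≤ K → t ≤ K → (s : ZMod N) = t → s = t := by
    intro s t hs ht h
    rw [ZMod.natCast_eq_natCast_iff'] at h
    rwa [Nat.mod_eq_of_lt (by omega), Nat.mod_eq_of_lt (by omega)] at h
  rw [e, ncard_coe_finset, Finset.card_union_of_disjoint, Finset.card_image_of_injOn,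
    Finset.card_image_of_injOn]
  · simp; omega
  · intro s hs t ht h
    rw [Finset.coe_Icc] at hs ht
    exact inj s t hs.2 ht.2 (by simpa using h)
  · intro s hs t ht h
    rw [Finset.coe_Icc] at hs ht
    exact inj s t hs.2 ht.2 (by simpa using h)
  · rw [Finset.disjoint_left]
    intro j hj hj'
    simp only [Finset.mem_image, Finset.mem_Icc] at hj hj'
    obtain ⟨s, ⟨hs1, hs2⟩, rfl⟩ := hj
    obtain ⟨t, ⟨ht1, ht2⟩, h⟩ := hj'
    have h2 : ((s + t : ℕ) : ZMod N) = 0 := by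
      push_cast
      linear_combination -h
    rw [ZMod.natCast_eq_zero_iff] at h2
    have := Nat.le_of_dvd (by omega) h2
    omega

theorem class_count (a b : ℕ) (p : Fin 3) (i : ZMod (NN a b)) (q : Fin 3) :
    {v | (circ a b).Adj (p, i) v ∧ v.1 = q}.ncard = 2 * KK a b p q := by
  have hK : 2 * KK a b p q < NN a b := by
    have := KK_le a b p q
    have hN : NN a b = 20 * (a + b) + 5 := rfl
    omega
  rw [← circ_count (NN a b) i (KK a b p q) hK]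
  have e : {v | (circ a b).Adj (p, i) v ∧ v.1 = q} = (fun j => (q, j)) ''
      {j : ZMod (NN a b) | ∃ t : ℕ, 1 ≤ t ∧ t ≤ KK a b p q ∧ (j = i + t ∨ i = j + t)} := by
    ext ⟨q', j⟩
    constructor
    · rintro ⟨⟨t, h1, h2, h3⟩, rfl⟩
      exact ⟨j, ⟨t, h1, h2, h3⟩, rfl⟩
    · rintro ⟨j', ⟨t, h1, h2, h3⟩, h⟩
      obtain ⟨rfl, rfl⟩ := Prod.mk.inj h
      exact ⟨⟨t, h1, h2, h3⟩, rfl⟩
  rw [e, ncard_image_of_injective]
  intro x y h
  exact (Prod.mk.inj h).2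

/-- `S₁`: the classes `0` and `1`. -/
def SS (a b : ℕ) : Set (Fin 3 × ZMod (NN a b)) := {v | v.1 ≠ 2}

theorem nbrs_SS (a b : ℕ) (p : Fin 3) (i : ZMod (NN a b)) :
    nbrs (circ a b) (SS a b) (p, i) = 2 * KK a b p 0 + 2 * KK a b p 1 := by
  rw [← class_count a b p i 0, ← class_count a b p i 1]
  unfold nbrs
  rw [← ncard_union_eq]
  · congr 1
    ext ⟨q, j⟩
    simp only [SS, Set.mem_ofPred_eq, Set.mem_union]
    fin_cases q <;> simp
  · rw [Set.disjoint_left]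
    rintro ⟨q, j⟩ ⟨-, h1⟩ ⟨-, h2⟩
    simp only at h1 h2
    rw [h1] at h2
    exact absurd h2 (by decide)

theorem nbrs_SSc (a b : ℕ) (p : Fin 3) (i : ZMod (NN a b)) :
    nbrs (circ a b) (SS a b)ᶜ (p, i) = 2 * KK a b p 2 := by
  rw [← class_count a b p i 2]
  unfold nbrs
  congr 1
  ext ⟨q, j⟩
  simp [SS]

theorem step_adj (a b : ℕ) (p q : Fin 3) (i : ZMod (NN a b)) (h : 1 ≤ KK a b p q) :
    (circ a b).Adj (p, i) (q, i + 1) := ⟨1, le_rfl, h, Or.inl (by simp)⟩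

theorem circ_connected (a b : ℕ) (hb : 1 ≤ b) : (circ a b).Connected := by
  rw [SimpleGraph.connected_iff_exists_forall_reachable]
  have h11 : ∀ p : Fin 3, 1 ≤ KK a b p p := by
    intro p; fin_cases p <;> simp [KK] <;> omega
  have hcyc : ∀ (p : Fin 3) (n : ℕ), (circ a b).Reachable (p, 0) (p, (n : ZMod (NN a b))) := by
    intro p n
    induction n with
    | zero => simp
    | succ n ih =>
      refine ih.trans ?_
      have := step_adj a b p p (n : ZMod (NN a b)) (h11 p)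
      push_cast
      exact this.reachable
  have hcyc' : ∀ (p : Fin 3) (i : ZMod (NN a b)), (circ a b).Reachable (p, 0) (p, i) := by
    intro p i
    have := hcyc p i.val
    rwa [ZMod.natCast_zmod_val] at this
  have h10 : (circ a b).Reachable (1, 0) (0, 0) := by
    have h1 : (circ a b).Adj (1, 0) (0, 0 + 1) := step_adj a b 1 0 0 (by simp [KK])
    exact h1.reachable.trans (hcyc' 0 _).symm
  have h12 : (circ a b).Reachable (1, 0) (2, 0) := by
    have h1 : (circ a b).Adj (1, 0) (2, 0 + 1) := step_adj a b 1 2 0 (by simp [KK]; omega)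
    exact h1.reachable.trans (hcyc' 2 _).symm
  refine ⟨(1, 0), ?_⟩
  rintro ⟨p, i⟩
  fin_cases p
  · exact h10.trans (hcyc' 0 i)
  · exact hcyc' 1 i
  · exact h12.trans (hcyc' 2 i)

/-- **Full answer to Q1 of MP_7aff4e_co.**  The realisable `α` are exactly the angles in
`(0, π/2)` whose squared tangent is rational. -/
theorem result : {α : ℝ | Realisable α} =
    {α : ℝ | 0 < α ∧ α < Real.pi / 2 ∧ ∃ q : ℚ, Real.tan α ^ 2 = q} := by
  ext α
  simp only [Set.mem_ofPred_eq]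
  constructor
  · rintro ⟨V, _, G, S, μ₁, μ₂, r, hG, h1, h2, hne, hl, hs, ht, rfl⟩
    have hs2 : (μ₁ + μ₂) ^ 2 < 4 := by
      rw [abs_lt] at hs
      nlinarith [hs.1, hs.2]
    have hpos : 0 < √(4 - (μ₁ + μ₂) ^ 2) / (μ₁ - μ₂) :=
      div_pos (Real.sqrt_pos.2 (by linarith)) (by linarith)
    refine ⟨Real.arctan_pos.2 hpos, Real.arctan_lt_pi_div_two _, ?_⟩
    obtain ⟨⟨q1, rfl⟩, ⟨q2, rfl⟩⟩ := params_rational hG h1 h2 hne hl
    refine ⟨(4 - (q1 + q2) ^ 2) / (q1 - q2) ^ 2, ?_⟩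
    rw [Real.tan_arctan, div_pow, Real.sq_sqrt (by linarith)]
    push_cast
    ring
  · rintro ⟨h0, h1, q, hq⟩
    have htan : 0 < Real.tan α := Real.tan_pos_of_pos_of_lt_pi_div_two h0 h1
    have hqpos : 0 < q := by
      have : (0 : ℝ) < q := by rw [← hq]; positivity
      exact_mod_cast this
    obtain ⟨a, b, ha, hb, hqab⟩ : ∃ a b : ℕ, 0 < a ∧ 0 < b ∧ (q : ℝ) = a / b := by
      refine ⟨q.num.toNat, q.den, ?_, q.den_pos, ?_⟩
      · have := Rat.num_pos.2 hqpos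
        omega
      · have h3 : ((q.num.toNat : ℕ) : ℤ) = q.num := Int.toNat_of_nonneg (Rat.num_pos.2 hqpos).le
        have h4 : ((q.num.toNat : ℕ) : ℝ) = (q.num : ℝ) := by exact_mod_cast h3
        rw [h4]
        exact Rat.cast_def q
    have haR : (0 : ℝ) < a := by exact_mod_cast ha
    have hbR : (0 : ℝ) < b := by exact_mod_cast hb
    have e1 : ((3 * b - a) / (a + b) + (-1) : ℝ) = 2 * (b - a) / (a + b) := by
      field_simp; ring
    have e2 : ((3 * b - a) / (a + b) - (-1) : ℝ) = 4 * b / (a + b) := by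
      field_simp; ring
    refine ⟨Fin 3 × ZMod (NN a b), inferInstance, circ a b, SS a b, (3 * b - a) / (a + b), -1,
      -(2 * (2 * (a + b) + 1)), circ_connected a b hb, ⟨(0, 0), by simp [SS]⟩,
      ⟨(2, 0), by simp [SS]⟩, ?_, ⟨?_, ?_⟩, ?_, ?_, ?_⟩
    · intro h
      have := (h.1 (0, 0) (by simp [SS]) (1, 0) (by simp [SS])).2
      rw [nbrs_SSc, nbrs_SSc] at this
      simp [KK] at this
      omega
    · rintro ⟨p, i⟩ hp
      rw [nbrs_SS, nbrs_SSc]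
      have hp' : p ≠ 2 := hp
      fin_cases p
      · simp [KK]; ring
      · simp [KK]; field_simp; ring
      · exact absurd rfl hp'
    · rintro ⟨p, i⟩ hp
      rw [nbrs_SS, nbrs_SSc]
      have hp' : p = 2 := by
        by_contra h; exact hp h
      subst hp'
      simp [KK]; ring
    · rw [e1, abs_lt]
      constructor
      · rw [lt_div_iff₀ (by positivity)]; linarith
      · rw [div_lt_iff₀ (by positivity)]; linarith
    · have : (0 : ℝ) < (3 * b - a) / (a + b) - (-1) := by rw [e2]; positivity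
      linarith
    · rw [e1, e2]
      have h3 : √(4 - (2 * ((b : ℝ) - a) / (a + b)) ^ 2) / (4 * b / (a + b)) = Real.tan α := by
        rw [← Real.sqrt_sq htan.le, hq, hqab]
        rw [div_eq_iff (by positivity)]
        rw [← Real.sqrt_sq (show (0 : ℝ) ≤ 4 * b / (a + b) by positivity), ← Real.sqrt_mul (by positivity)]
        congr 1
        field_simp
        ring
      rw [h3, Real.arctan_tan (by linarith) h1]

end Pool.Agent.Results.MP_7aff4e_co.RealisableSet
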